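import Pool.Agent.N658.FF.Stm3
import Pool.Agent.N711.FF.Impl

/-!
# Project FF2 (helper658): the light cone (helper717)
-/

set_option autoImplicit false

open scoped InnerProductSpace Classical

noncomputable section

namespace Pool.Agent.N717.FF

open Pool.Agent.N658.FF Pool.Agent.N711.FF

variable {E : Type} [NormedAddCommGroup E] [InnerProductSpace ℂ E] [FiniteDimensional ℂ E]
variable {T : Type} [Fintype T] [DecidableEq T] {c : ℕ}

/-- One layer shrinks the set of satisfied terms by one neighbourhood. -/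
theorem layer {V : T → Submodule ℂ E} {adj : T → T → Prop} {g : ℕ} (hL : Loc V adj g)
    {col : T → Fin c} (hcol : ∀ x y, x ≠ y → adj x y → col x ≠ col y) (A Y : Finset T) (i m : ℕ)
    (w : E) (hw : w ∈ G V (Nb adj (m + 1) Y)) :
    pp V (ls col A i) w ∈ G V (Nb adj m Y) := by
  have h1 : pp V (ls col A i) w = pp V (ls col (A \ Nb adj (m + 1) Y) i) w := by
    refine pp_drop Finset.sdiff_subset _ _ ?_ ?_
    · intro x y hx hy
      by_cases hxy : x = y
      · rw [hxy]
      · refine hL.comm x y fun h => hcol x y hxy h (Fin.ext (hx.trans hy.symm))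
    · intro x hx hx'
      have h2 : x ∈ Nb adj (m + 1) Y := by
        by_contra h
        exact hx' (Finset.mem_sdiff.2 ⟨hx, h⟩)
      exact Submodule.starProjection_eq_self_iff.2 (mem_G.1 hw x h2)
  rw [h1, mem_G]
  intro z hz
  have h3 : Commute (pp V (ls col (A \ Nb adj (m + 1) Y) i)) (pr (V z)) := by
    refine pp_comm V _ _ fun x hx => ?_
    refine hL.comm x z fun h => ?_
    exact (Finset.mem_sdiff.1 (mem_ls.1 hx).1).2 (adj_Nb hz (hL.symm x z h))
  have h4 := congrArg (fun f : E →L[ℂ] E => f w) h3.eq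
  simp only [mul_apply_eq_comp] at h4
  rw [Submodule.starProjection_eq_self_iff.2 (mem_G.1 hw z (Nb_mono adj m Y hz))] at h4
  exact Submodule.starProjection_eq_self_iff.1 h4.symm

/-- The light cone of `j` layers. -/
theorem layers {V : T → Submodule ℂ E} {adj : T → T → Prop} {g : ℕ} (hL : Loc V adj g)
    {col : T → Fin c} (hcol : ∀ x y, x ≠ y → adj x y → col x ≠ col y) (A Y : Finset T)
    (v : E) (j m : ℕ) (hv : v ∈ G V (Nb adj (m + j) Y)) :
    Ly V col A j v ∈ G V (Nb adj m Y) := by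
  induction j generalizing m with
  | zero => exact hv
  | succ j ih =>
    unfold Ly
    rw [mul_apply_eq_comp]
    refine layer hL hcol A Y _ m _ (ih (m + 1) ?_)
    rw [show m + 1 + j = m + (j + 1) by ring]
    exact hv

theorem cone (h : StmDL) : StmCone := by
  intro E _ _ _ T _ _ V adj g Δ hL hΔ hG c col hcol A Y k v hv
  set p := pr (G V A) v with hp
  set M : E →L[ℂ] E := Ly V col A (k * c) with hM
  have hpm : p ∈ G V A := Submodule.starProjection_apply_mem _ _
  have hMp : M p = p := Ly_fix V col _ _ p fun x hx => mem_G.1 hpm x hx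
  have hMv : M v ∈ G V Y := layers hL hcol A Y v (k * c) 0 (by rw [Nat.zero_add]; exact hv)
  have h5 : v - p ∈ (G V A)ᗮ := Submodule.sub_starProjection_mem_orthogonal _
  have h6 : ‖v‖ ^ 2 = ‖p‖ ^ 2 + ‖v - p‖ ^ 2 := by
    have h7 := norm_add_sq (𝕜 := ℂ) p (v - p)
    have h8 : ⟪p, v - p⟫_ℂ = 0 := (Submodule.mem_orthogonal _ _).1 h5 p hpm
    rw [add_sub_cancel, h8] at h7
    simpa using h7
  have h7 : ‖v - p‖ ≤ ‖v‖ := by
    refine (abs_le_of_sq_le_sq' ?_ (norm_nonneg _)).2
    have := sq_nonneg ‖p‖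
    linarith
  have h8 : ‖p - M v‖ ≤ Real.sqrt ((g : ℝ) ^ 2 / ((g : ℝ) ^ 2 + Δ)) ^ k * ‖v‖ := by
    have h4 : p - M v = -(M (v - p)) := by
      rw [map_sub, hMp]
      abel
    rw [h4, norm_neg]
    refine (passes h hL hΔ hG col A k _ h5).2.trans ?_
    exact mul_le_mul_of_nonneg_left h7 (by positivity)
  have h9 : p - pr (G V Y) p = (p - M v) - pr (G V Y) (p - M v) := by
    rw [map_sub, (Submodule.starProjection_eq_self_iff (K := G V Y)).2 hMv]
    abel
  have h10 : ‖(p - M v) - pr (G V Y) (p - M v)‖ ≤ ‖p - M v‖ := by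
    set a := p - M v with ha
    have h11 : pr (G V Y) a ∈ G V Y := Submodule.starProjection_apply_mem _ _
    have h12 : a - pr (G V Y) a ∈ (G V Y)ᗮ := Submodule.sub_starProjection_mem_orthogonal _
    have h13 := norm_add_sq (𝕜 := ℂ) (pr (G V Y) a) (a - pr (G V Y) a)
    have h14 : ⟪pr (G V Y) a, a - pr (G V Y) a⟫_ℂ = 0 := (Submodule.mem_orthogonal _ _).1 h12 _ h11
    rw [add_sub_cancel, h14] at h13
    have h15 : ‖a‖ ^ 2 = ‖pr (G V Y) a‖ ^ 2 + ‖a - pr (G V Y) a‖ ^ 2 := by simpa using h13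
    refine (abs_le_of_sq_le_sq' ?_ (norm_nonneg _)).2
    have := sq_nonneg ‖pr (G V Y) a‖
    linarith
  rw [h9]
  exact h10.trans h8

end Pool.Agent.N717.FF
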